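import Mathlib
import Pool.Agent.Helper434.PSBase

/-!
# A binary tree of constructions of pattern Sturmian potentials with eigenvectors
-/

set_option autoImplicit false

namespace Pool.Agent.Y471.PS

open ENNReal Pool.Agent.Helper434.PSStair Pool.Agent.Helper434.PSWin
open Pool.Agent.Helper434.PSHilb Pool.Agent.Helper434.PSStep Pool.Agent.Helper434.PSPal
open Pool.Agent.Helper434.PSMain Pool.Agent.Helper434.PSBase
open Filter Topology

variable {lam : ℝ}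

lemma pow_half_pos {c : ℝ} (hc : 0 < c) (n : ℕ) : 0 < c / 4 / 2 ^ n := by positivity

/-- lower bound for the next denominator -/
def bnd (G : ℤ → ℤ) (S : St lam) (n : ℕ) : ℤ :=
  max (G S.q) (4 * (S.q + |S.s| + |S.t| + n + 10))

/-- next level with denominator greater than `Q` -/
noncomputable def nx (G : ℤ → ℤ) (S : St lam) {ε : ℝ} (hε : 0 < ε) (n : ℕ) (Q : ℤ) : St lam :=
  (next S hε (n : ℤ) (max Q (bnd G S n)) (by positivity)).choose

/-- what is known about two consecutive levels -/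
def Good (G : ℤ → ℤ) (S S' : St lam) (ε : ℝ) (n : ℕ) : Prop :=
  S'.p * S.q - S.p * S'.q = 1 ∧ 4 * (S.q + |S.s| + |S.t| + n + 10) < S'.q ∧ S'.s = S.t ∧
    S'.t = S.s + S'.q - S.q ∧ S'.kap = 1 - S.kap ∧ |S'.E - S.E| < ε ∧ ‖S'.φ - S.φ‖ < ε ∧
    (∀ j : ℤ, |j| ≤ n → xseq S'.p S'.q S'.s S'.t S'.kap j = xseq S.p S.q S.s S.t S.kap j) ∧
    G S.q < S'.q

lemma nx_spec (G : ℤ → ℤ) (S : St lam) {ε : ℝ} (hε : 0 < ε) (n : ℕ) (Q : ℤ) :
    Good G S (nx G S hε n Q) ε n ∧ Q < (nx G S hε n Q).q := by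
  have h := (next S hε (n : ℤ) (max Q (bnd G S n)) (by positivity)).choose_spec
  obtain ⟨h1, h2, h3, h4, h5, h6, h7, h8⟩ := h
  have g1 : Q < (nx G S hε n Q).q := (le_max_left _ _).trans_lt h2
  have g2 : bnd G S n < (nx G S hε n Q).q := (le_max_right _ _).trans_lt h2
  exact ⟨⟨h1, (le_max_right _ _).trans_lt g2, h3, h4, h5, h6, h7, h8, (le_max_left _ _).trans_lt g2⟩,
    g1⟩

/-- levels of the construction with the choices `b` -/
noncomputable def sq (G : ℤ → ℤ) (S0 : St lam) {c : ℝ} (hc : 0 < c) (b : ℕ → Bool) : ℕ → St lam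
  | 0 => S0
  | n + 1 =>
    if b n = true then
      nx G (sq G S0 hc b n) (pow_half_pos hc n) n
        (2 * (nx G (sq G S0 hc b n) (pow_half_pos hc n) n 0).q)
    else nx G (sq G S0 hc b n) (pow_half_pos hc n) n 0

lemma sq_succ_true (G : ℤ → ℤ) (S0 : St lam) {c : ℝ} (hc : 0 < c) (b : ℕ → Bool) (n : ℕ)
    (h : b n = true) : sq G S0 hc b (n + 1) = nx G (sq G S0 hc b n) (pow_half_pos hc n) n
        (2 * (nx G (sq G S0 hc b n) (pow_half_pos hc n) n 0).q) := by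
  rw [sq, if_pos h]

lemma sq_succ_false (G : ℤ → ℤ) (S0 : St lam) {c : ℝ} (hc : 0 < c) (b : ℕ → Bool) (n : ℕ)
    (h : b n = false) :
    sq G S0 hc b (n + 1) = nx G (sq G S0 hc b n) (pow_half_pos hc n) n 0 := by
  rw [sq, if_neg (by rw [h]; decide)]

lemma sq_spec (G : ℤ → ℤ) (S0 : St lam) {c : ℝ} (hc : 0 < c) (b : ℕ → Bool) (n : ℕ) :
    Good G (sq G S0 hc b n) (sq G S0 hc b (n + 1)) (c / 4 / 2 ^ n) n := by
  cases h : b n with
  | true => rw [sq_succ_true G S0 hc b n h]; exact (nx_spec G _ _ n _).1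
  | false => rw [sq_succ_false G S0 hc b n h]; exact (nx_spec G _ _ n _).1

lemma sq_congr (G : ℤ → ℤ) (S0 : St lam) {c : ℝ} (hc : 0 < c) (b b' : ℕ → Bool) (n : ℕ) :
    (∀ k, k < n → b k = b' k) → sq G S0 hc b n = sq G S0 hc b' n := by
  induction n with
  | zero => intro _; rfl
  | succ n ih =>
    intro h
    have e := ih fun k hk => h k (by omega)
    have hb := h n (by omega)
    cases hn : b n with
    | true =>
      rw [sq_succ_true G S0 hc b n hn, sq_succ_true G S0 hc b' n (by rw [← hb, hn]), e]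
    | false =>
      rw [sq_succ_false G S0 hc b n hn, sq_succ_false G S0 hc b' n (by rw [← hb, hn]), e]

lemma sq_diff (G : ℤ → ℤ) (S0 : St lam) {c : ℝ} (hc : 0 < c) (b b' : ℕ → Bool) (n : ℕ)
    (h : ∀ k, k < n → b k = b' k) (h0 : b n = false) (h1 : b' n = true) :
    2 * (sq G S0 hc b (n + 1)).q < (sq G S0 hc b' (n + 1)).q := by
  rw [sq_succ_true G S0 hc b' n h1, sq_succ_false G S0 hc b n h0, sq_congr G S0 hc b b' n h]
  exact (nx_spec G _ _ n _).2

/-- **A binary tree of constructions.** -/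
theorem tree_exists (hlam : lam ≠ 0) (G : ℤ → ℤ) :
    ∃ σ : (ℕ → Bool) → ℕ → St lam,
      (∀ b b' n, (∀ k, k < n → b k = b' k) → σ b n = σ b' n) ∧
      (∀ b b' n, (∀ k, k < n → b k = b' k) → b n = false → b' n = true →
        2 * (σ b (n + 1)).q < (σ b' (n + 1)).q) ∧
      ∀ b, (σ b 0).p = 0 ∧ (σ b 0).q = 1 ∧ (σ b 0).s = 0 ∧ (σ b 0).t = 1 ∧ (σ b 0).kap = 0 ∧
        (∀ n, (σ b (n + 1)).p * (σ b n).q - (σ b n).p * (σ b (n + 1)).q = 1) ∧
        (∀ n, 4 * ((σ b n).q + |(σ b n).s| + |(σ b n).t| + n + 10) < (σ b (n + 1)).q) ∧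
        (∀ n, (σ b (n + 1)).s = (σ b n).t) ∧
        (∀ n, (σ b (n + 1)).t = (σ b n).s + (σ b (n + 1)).q - (σ b n).q) ∧
        (∀ n, (σ b (n + 1)).kap = 1 - (σ b n).kap) ∧
        (∀ n, G (σ b n).q < (σ b (n + 1)).q) ∧
        ∃ (x : ℤ → ℤ) (E : ℝ) (φ : EE),
        (∀ j, x j = 0 ∨ x j = 1) ∧
        (∀ j : ℤ, ∀ n : ℕ, |j| ≤ n →
          xseq (σ b n).p (σ b n).q (σ b n).s (σ b n).t (σ b n).kap j = x j) ∧
        φ ≠ 0 ∧ ∀ j, φ (j + 1) + φ (j - 1) + lam * (x j : ℝ) * φ j = E * φ j := by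
  obtain ⟨S0, hp0, hq0, hs0, ht0, hk0⟩ := base hlam
  have hc : 0 < ‖S0.φ‖ := norm_pos_iff.mpr S0.hφ
  refine ⟨fun b => sq G S0 hc b, fun b b' n h => sq_congr G S0 hc b b' n h,
    fun b b' n h h0 h1 => sq_diff G S0 hc b b' n h h0 h1, fun b => ?_⟩
  have hspec := sq_spec G S0 hc b
  set c := ‖S0.φ‖ with hcdef
  set σ := sq G S0 hc b with hσ
  have hσ0 : σ 0 = S0 := rfl
  have hstab : ∀ j : ℤ, ∀ n : ℕ, |j| ≤ n →
      xseq (σ n).p (σ n).q (σ n).s (σ n).t (σ n).kap j =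
      xseq (σ j.natAbs).p (σ j.natAbs).q (σ j.natAbs).s (σ j.natAbs).t (σ j.natAbs).kap j := by
    intro j n hn
    rw [← Int.natCast_natAbs] at hn
    obtain ⟨k, rfl⟩ : ∃ k : ℕ, n = j.natAbs + k := ⟨n - j.natAbs, by omega⟩
    clear hn
    induction k with
    | zero => rfl
    | succ k ih =>
      rw [← ih]
      have h := (hspec (j.natAbs + k)).2.2.2.2.2.2.2.1 j (by
        rw [← Int.natCast_natAbs]; push_cast; omega)
      exact h
  -- limits
  have hgeo1 : ∀ n, dist (σ n).E (σ (n + 1)).E ≤ c / 2 / 2 / 2 ^ n := by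
    intro n
    rw [dist_comm, Real.dist_eq, show c / 2 / 2 / 2 ^ n = c / 4 / 2 ^ n by ring]
    exact (hspec n).2.2.2.2.2.1.le
  have hgeo2 : ∀ n, dist (σ n).φ (σ (n + 1)).φ ≤ c / 2 / 2 / 2 ^ n := by
    intro n
    rw [dist_comm, dist_eq_norm, show c / 2 / 2 / 2 ^ n = c / 4 / 2 ^ n by ring]
    exact (hspec n).2.2.2.2.2.2.1.le
  obtain ⟨E, hE⟩ := cauchySeq_tendsto_of_complete (cauchySeq_of_le_geometric_two hgeo1)
  obtain ⟨φ, hφ⟩ := cauchySeq_tendsto_of_complete (cauchySeq_of_le_geometric_two hgeo2)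
  have hd := dist_le_of_le_geometric_two_of_tendsto₀ hgeo2 hφ
  have hφ0 : φ ≠ 0 := by
    rintro rfl
    rw [hσ0, dist_zero_right, ← hcdef] at hd
    linarith
  refine ⟨hp0, hq0, hs0, ht0, hk0, fun n => (hspec n).1, fun n => (hspec n).2.1,
    fun n => (hspec n).2.2.1, fun n => (hspec n).2.2.2.1, fun n => (hspec n).2.2.2.2.1,
    fun n => (hspec n).2.2.2.2.2.2.2.2,
    fun j => xseq (σ j.natAbs).p (σ j.natAbs).q (σ j.natAbs).s (σ j.natAbs).t (σ j.natAbs).kap j,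
    E, φ, fun j => xseq_zero_or_one (σ _).hq (σ _).hk j, hstab, hφ0, ?_⟩
  intro j
  have hcoord : ∀ i : ℤ, Tendsto (fun n => (σ n).φ i) atTop (𝓝 (φ i)) := by
    intro i
    have h1 : Tendsto (fun n => inner ℝ (dd i) (σ n).φ) atTop (𝓝 (inner ℝ (dd i) φ)) :=
      (continuous_const.inner continuous_id).tendsto φ |>.comp hφ
    simpa only [inner_dd] using h1
  have hlim : Tendsto (fun n => (σ n).φ (j + 1) + (σ n).φ (j - 1) +
      (lam * ((xseq (σ j.natAbs).p (σ j.natAbs).q (σ j.natAbs).s (σ j.natAbs).t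
        (σ j.natAbs).kap j : ℤ) : ℝ) - (σ n).E) * (σ n).φ j) atTop
      (𝓝 (φ (j + 1) + φ (j - 1) +
      (lam * ((xseq (σ j.natAbs).p (σ j.natAbs).q (σ j.natAbs).s (σ j.natAbs).t
        (σ j.natAbs).kap j : ℤ) : ℝ) - E) * φ j)) :=
    ((hcoord _).add (hcoord _)).add ((tendsto_const_nhds.sub hE).mul (hcoord _))
  have hzero : Tendsto (fun n => (σ n).φ (j + 1) + (σ n).φ (j - 1) +
      (lam * ((xseq (σ j.natAbs).p (σ j.natAbs).q (σ j.natAbs).s (σ j.natAbs).t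
        (σ j.natAbs).kap j : ℤ) : ℝ) - (σ n).E) * (σ n).φ j) atTop (𝓝 0) := by
    apply tendsto_const_nhds.congr'
    filter_upwards [eventually_ge_atTop j.natAbs] with n hn
    have h1 := (σ n).heq j
    unfold op at h1
    simp only at h1
    rw [hstab j n (by rw [← Int.natCast_natAbs]; omega)] at h1
    exact h1.symm
  have h2 := tendsto_nhds_unique hlim hzero
  simp only
  linear_combination h2

end Pool.Agent.Y471.PS
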